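import Mathlib

/-!
# MP_2a6b7d_co: proximity of F-avoiding bases in group-labelled matroids

Let `B*` be an `F`-avoiding basis nearest to `B`. Among the bases between `B ∩ B*` and `B ∪ B*`,
only `B*` has its label. The theorem of Kemperman and Scherk on sumsets that have an element with
only one representation gives a lower bound for the number of labels of these bases.
-/

set_option autoImplicit false

namespace Pool.Agent.Results.MP_2a6b7d_co.Proximity

open Finset
open scoped Pointwise

/-! ### The theorem of Scherk and Kemperman -/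

theorem scherk {Γ : Type*} [AddCommGroup Γ] [DecidableEq Γ] (n : ℕ) :
    ∀ U V : Finset Γ, #V ≤ n → 0 ∈ U → 0 ∈ V → (∀ u ∈ U, ∀ v ∈ V, u + v = 0 → v = 0) →
      #U + #V ≤ #(U + V) + 1 := by
  induction n with
  | zero =>
    intro U V hn _ hV _
    have : V = ∅ := card_eq_zero.1 (by omega)
    rw [this] at hV; simp at hV
  | succ n ih =>
    intro U V hn hU hV huniq
    by_cases h1 : ∀ v ∈ V, v = 0
    · have h2 : V = {0} := by
        ext x; constructor
        · intro hx; simp [h1 x hx]
        · intro hx; rw [mem_singleton] at hx; rwa [hx]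
      rw [h2]; simp
    · push Not at h1
      obtain ⟨v, hv, hv0⟩ := h1
      have h3 : ∃ e ∈ U, ∃ w ∈ V, e + w ∉ U := by
        by_contra hcon
        push Not at hcon
        have h4 : U.image (fun e => e + v) ⊆ U := by
          intro x hx
          rw [mem_image] at hx
          obtain ⟨e, he, rfl⟩ := hx
          exact hcon e he v hv
        have h5 : U.image (fun e => e + v) = U := by
          refine eq_of_subset_of_card_le h4 ?_
          rw [card_image_of_injective _ (add_left_injective v)]
        have h6 : (0 : Γ) ∈ U.image (fun e => e + v) := by rw [h5]; exact hU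
        rw [mem_image] at h6
        obtain ⟨e, he, hev⟩ := h6
        exact hv0 (huniq e he v hv hev)
      obtain ⟨e, he, w, hw, hew⟩ := h3
      have hc := addDysonETransform.card e (U, V)
      have hs := addDysonETransform.subset e (U, V)
      simp only [addDysonETransform] at hc hs
      have hlt : #(V ∩ (-e +ᵥ U)) < #V := by
        refine card_lt_card ⟨inter_subset_left, fun hcon => ?_⟩
        have := hcon hw
        rw [mem_inter, mem_vadd_finset] at this
        obtain ⟨_, u, hu, huw⟩ := this
        apply hew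
        rw [← huw]
        simpa using hu
      have key := ih (U ∪ (e +ᵥ V)) (V ∩ (-e +ᵥ U)) (by omega) (mem_union_left _ hU)
        (mem_inter.2 ⟨hV, mem_vadd_finset.2 ⟨e, he, by simp⟩⟩) (by
          intro u' hu' v' hv' h0
          rw [mem_inter, mem_vadd_finset] at hv'
          obtain ⟨hv'V, u, hu, huv⟩ := hv'
          rw [mem_union, mem_vadd_finset] at hu'
          rcases hu' with hu' | ⟨v₁, hv₁, hv₁u⟩
          · exact huniq u' hu' v' hv'V h0
          · have h7 : u + v₁ = 0 := by
              rw [← h0, ← hv₁u, ← huv]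
              simp only [vadd_eq_add]
              abel
            have h8 := huniq u hu v₁ hv₁ h7
            rw [h8, add_zero] at h7
            rw [h7] at huv
            have h9 : e + v' = 0 := by
              rw [← huv]; simp
            exact huniq e he v' hv'V h9)
      have hle := card_le_card hs
      omega

/-! ### The labels of the bases near a basis with a label of its own -/

section
variable {α Γ : Type*} [AddCommGroup Γ] [DecidableEq α] [DecidableEq Γ]

open Classical in
/-- the labels of the bases `A` with `J ⊆ A ⊆ S` -/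
noncomputable def lab (M : Matroid α) (ψ : α → Γ) (S J : Finset α) : Finset Γ :=
  (S.powerset.filter (fun A => J ⊆ A ∧ M.IsBase (A : Set α))).image (fun A => ∑ x ∈ A, ψ x)

lemma mem_lab {M : Matroid α} {ψ : α → Γ} {S J : Finset α} {g : Γ} :
    g ∈ lab M ψ S J ↔ ∃ A : Finset α, A ⊆ S ∧ J ⊆ A ∧ M.IsBase (A : Set α) ∧
      ∑ x ∈ A, ψ x = g := by
  unfold lab
  simp only [mem_image, mem_filter, mem_powerset]
  constructor
  · rintro ⟨A, ⟨h1, h2, h3⟩, h4⟩; exact ⟨A, h1, h2, h3, h4⟩
  · rintro ⟨A, h1, h2, h3, h4⟩; exact ⟨A, ⟨h1, h2, h3⟩, h4⟩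

/-- the elements of `S` with label `g` -/
def cls (ψ : α → Γ) (S : Finset α) (g : Γ) : Finset α := S.filter (fun x => ψ x = g)

theorem count (M : Matroid α) (r : Set α → ℕ) (hr : ∀ X, M.eRk X = r X) (ψ : α → Γ)
    {S Bs I : Finset α} (hBs : M.IsBase (Bs : Set α)) (hBS : Bs ⊆ S) (hSE : (S : Set α) ⊆ M.E)
    (huniq : ∀ A ⊆ S, I ⊆ A → M.IsBase (A : Set α) → ∑ x ∈ A, ψ x = ∑ x ∈ Bs, ψ x → A = Bs)
    (n : ℕ) : ∀ J : Finset α, #(Bs \ J) = n → I ⊆ J → J ⊆ Bs →
      ∑ g ∈ S.image ψ, r ((cls ψ S g ∪ J : Finset α) : Set α) + 1 ≤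
        #(lab M ψ S J) + #(Bs \ J) + #(S.image ψ) * #J := by
  classical
  induction n with
  | zero =>
    intro J hn hIJ hJ
    have h1 : J = Bs := by
      have := card_eq_zero.1 hn
      rw [sdiff_eq_empty_iff_subset] at this
      exact subset_antisymm hJ this
    subst h1
    have h2 : ∀ g ∈ S.image ψ, r ((cls ψ S g ∪ J : Finset α) : Set α) ≤ #J := by
      intro g _
      have h3 : M.eRk ((cls ψ S g ∪ J : Finset α) : Set α) ≤ M.eRank := M.eRk_le_eRank _
      rw [hr, ← hBs.encard_eq_eRank, Set.encard_coe_eq_coe_finsetCard] at h3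
      exact_mod_cast h3
    have h4 := sum_le_card_nsmul _ _ _ h2
    have h5 : ∑ x ∈ J, ψ x ∈ lab M ψ S J := mem_lab.2 ⟨J, hBS, subset_rfl, hBs, rfl⟩
    have h6 : 0 < #(lab M ψ S J) := card_pos.2 ⟨_, h5⟩
    simp only [smul_eq_mul] at h4
    omega
  | succ n ih =>
    intro J hn hIJ hJ
    obtain ⟨f, hf⟩ : (Bs \ J).Nonempty := card_pos.1 (by omega)
    rw [mem_sdiff] at hf
    obtain ⟨hfB, hfJ⟩ := hf
    have hJ' : insert f J ⊆ Bs := insert_subset hfB hJ
    have hc1 : Bs \ insert f J = (Bs \ J).erase f := by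
      ext x; simp only [mem_sdiff, mem_insert, mem_erase, not_or]; tauto
    have hc2 : #(Bs \ insert f J) = n := by
      rw [hc1, card_erase_of_mem (mem_sdiff.2 ⟨hfB, hfJ⟩)]; omega
    have key := ih (insert f J) hc2 (hIJ.trans (subset_insert _ _)) hJ'
    have hfE : f ∈ M.E := hBs.subset_ground hfB
    -- the labels that `f` can get
    set W := (S.image ψ).filter (fun g => f ∈ M.closure ((cls ψ S g ∪ J : Finset α) : Set α)) with hW
    have hrank : ∀ g, r ((cls ψ S g ∪ insert f J : Finset α) : Set α) =
        r ((cls ψ S g ∪ J : Finset α) : Set α) +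
          (if f ∈ M.closure ((cls ψ S g ∪ J : Finset α) : Set α) then 0 else 1) := by
      intro g
      have e1 : ((cls ψ S g ∪ insert f J : Finset α) : Set α) =
          insert f ((cls ψ S g ∪ J : Finset α) : Set α) := by
        ext x; simp only [coe_union, coe_insert, Set.mem_union, Set.mem_insert_iff, mem_coe]; tauto
      rw [e1]
      split_ifs with h
      · have h7 : M.eRk (insert f ((cls ψ S g ∪ J : Finset α) : Set α)) =
            M.eRk ((cls ψ S g ∪ J : Finset α) : Set α) := by
          rw [← M.eRk_closure_eq (insert f _), Matroid.closure_insert_eq_of_mem_closure h,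
            M.eRk_closure_eq]
        rw [hr, hr] at h7
        simpa using h7
      · have h7 := M.eRk_insert_eq_add_one (e := f) (X := ((cls ψ S g ∪ J : Finset α) : Set α))
          ⟨hfE, h⟩
        rw [hr, hr] at h7
        exact_mod_cast h7
    have hsum : ∑ g ∈ S.image ψ, r ((cls ψ S g ∪ insert f J : Finset α) : Set α) + #W =
        ∑ g ∈ S.image ψ, r ((cls ψ S g ∪ J : Finset α) : Set α) + #(S.image ψ) := by
      simp only [hrank]
      rw [sum_add_distrib]
      have h8 : (∑ g ∈ S.image ψ,
          (if f ∈ M.closure ((cls ψ S g ∪ J : Finset α) : Set α) then 0 else 1)) + #W =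
          #(S.image ψ) := by
        rw [hW, card_filter, ← sum_add_distrib, card_eq_sum_ones]
        refine sum_congr rfl fun g _ => ?_
        split_ifs <;> rfl
      omega
    -- the sumset
    have hsub : (W.image (fun g => g - ψ f)) +
        ((lab M ψ S (insert f J)).image (fun g => g - ∑ x ∈ Bs, ψ x)) ⊆
        (lab M ψ S J).image (fun g => g - ∑ x ∈ Bs, ψ x) ∧
        ∀ u ∈ W.image (fun g => g - ψ f),
          ∀ v ∈ (lab M ψ S (insert f J)).image (fun g => g - ∑ x ∈ Bs, ψ x),
          u + v = 0 → v = 0 := by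
      have step : ∀ w ∈ W, ∀ A : Finset α, A ⊆ S → insert f J ⊆ A → M.IsBase (A : Set α) →
          ∃ y, ψ y = w ∧ insert y (A.erase f) ⊆ S ∧ J ⊆ insert y (A.erase f) ∧
            M.IsBase ((insert y (A.erase f) : Finset α) : Set α) ∧
            ∑ x ∈ insert y (A.erase f), ψ x = w + (∑ x ∈ A, ψ x - ψ f) := by
        intro w hw A hAS hJA hA
        have hfA : f ∈ A := hJA (mem_insert_self _ _)
        have hJA' : J ⊆ A.erase f := by
          intro x hx
          rw [mem_erase]
          refine ⟨?_, hJA (mem_insert_of_mem hx)⟩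
          rintro rfl
          exact hfJ hx
        have hfc : f ∉ M.closure ((A : Set α) \ {f}) :=
          hA.indep.notMem_closure_sdiff_of_mem hfA
        have hyex : ∃ y ∈ cls ψ S w, y ∉ M.closure ((A : Set α) \ {f}) := by
          by_contra hcon
          push Not at hcon
          have h9 : ((cls ψ S w ∪ J : Finset α) : Set α) ⊆ M.closure ((A : Set α) \ {f}) := by
            intro x hx
            have hx' : x ∈ cls ψ S w ∪ J := hx
            rw [mem_union] at hx'
            rcases hx' with hx' | hx'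
            · exact hcon x hx'
            · refine M.mem_closure_of_mem ?_ ?_
              · have := hJA' hx'
                rw [mem_erase] at this
                exact ⟨this.2, this.1⟩
              · exact Set.sdiff_subset.trans hA.subset_ground
          have h10 := M.closure_subset_closure h9
          rw [Matroid.closure_closure] at h10
          exact hfc (h10 (mem_filter.1 hw).2)
        obtain ⟨y, hy, hyc⟩ := hyex
        have hy' := mem_filter.1 hy
        have hyE : y ∈ M.E := hSE hy'.1
        have hbase := hA.exchange_base_of_notMem_closure hfA hyc hyE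
        have hyA : y ∉ A.erase f := by
          intro hcon
          apply hyc
          refine M.mem_closure_of_mem ?_ ?_
          · rw [mem_erase] at hcon
            exact ⟨hcon.2, hcon.1⟩
          · exact Set.sdiff_subset.trans hA.subset_ground
        refine ⟨y, hy'.2, ?_, ?_, ?_, ?_⟩
        · exact insert_subset hy'.1 ((erase_subset _ _).trans hAS)
        · exact hJA'.trans (subset_insert _ _)
        · rw [coe_insert, coe_erase]; exact hbase
        · rw [sum_insert hyA, hy'.2, ← add_sum_erase A ψ hfA]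
          abel
      constructor
      · intro x hx
        rw [mem_add] at hx
        obtain ⟨u, hu, v, hv, rfl⟩ := hx
        rw [mem_image] at hu hv
        obtain ⟨w, hw, rfl⟩ := hu
        obtain ⟨g, hg, rfl⟩ := hv
        rw [mem_lab] at hg
        obtain ⟨A, hAS, hJA, hA, rfl⟩ := hg
        obtain ⟨y, _, h1, h2, h3, h4⟩ := step w hw A hAS hJA hA
        rw [mem_image]
        refine ⟨w + (∑ x ∈ A, ψ x - ψ f), mem_lab.2 ⟨_, h1, h2, h3, h4⟩, ?_⟩
        abel
      · intro u hu v hv huv
        rw [mem_image] at hu hv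
        obtain ⟨w, hw, rfl⟩ := hu
        obtain ⟨g, hg, rfl⟩ := hv
        rw [mem_lab] at hg
        obtain ⟨A, hAS, hJA, hA, rfl⟩ := hg
        obtain ⟨y, hyw, h1, h2, h3, h4⟩ := step w hw A hAS hJA hA
        have h5 : ∑ x ∈ insert y (A.erase f), ψ x = ∑ x ∈ Bs, ψ x := by
          rw [h4]
          have : w + (∑ x ∈ A, ψ x - ψ f) - ∑ x ∈ Bs, ψ x = 0 := by
            rw [← huv]; abel
          exact sub_eq_zero.1 this
        have h6 := huniq _ h1 (hIJ.trans h2) h3 h5
        have h7 : f ∈ insert y (A.erase f) := by rw [h6]; exact hfB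
        rw [mem_insert, mem_erase] at h7
        rcases h7 with h7 | h7
        · rw [← h7] at hyw
          rw [hyw, sub_self, zero_add] at huv
          exact huv
        · exact absurd rfl h7.1
    have hψf : ψ f ∈ W := by
      rw [hW, mem_filter]
      refine ⟨mem_image_of_mem _ (hBS hfB), ?_⟩
      refine M.mem_closure_of_mem ?_ ?_
      · simp only [coe_union, Set.mem_union, mem_coe]
        left
        exact mem_filter.2 ⟨hBS hfB, rfl⟩
      · intro x hx
        simp only [coe_union, Set.mem_union, mem_coe] at hx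
        rcases hx with hx | hx
        · exact hSE (mem_filter.1 hx).1
        · exact hBs.subset_ground (hJ hx)
    have h0 : (0 : Γ) ∈ W.image (fun g => g - ψ f) := mem_image.2 ⟨_, hψf, sub_self _⟩
    have h0' : (0 : Γ) ∈ (lab M ψ S (insert f J)).image (fun g => g - ∑ x ∈ Bs, ψ x) :=
      mem_image.2 ⟨_, mem_lab.2 ⟨Bs, hBS, hJ', hBs, rfl⟩, sub_self _⟩
    have hs := scherk _ _ _ le_rfl h0 h0' hsub.2
    have hs2 := card_le_card hsub.1
    rw [card_image_of_injective _ (sub_left_injective)] at hs2
    rw [card_image_of_injective _ (sub_left_injective),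
      card_image_of_injective _ (sub_left_injective)] at hs
    rw [card_insert_of_notMem hfJ, hc2, mul_add, mul_one] at key
    omega

end

/-- **Main theorem.** Let `M` be a matroid on a finite ground set whose elements are labelled by
an abelian group, and let `F` be a finite set of labels. If `M` has a basis whose label is not in
`F`, then for every basis `B` there is such a basis `B'` with `|B \ B'| ≤ |F|`. -/
theorem result {α Γ : Type*} [AddCommGroup Γ] (M : Matroid α) [M.Finite] (ψ : α → Γ)
    (F : Finset Γ) (hF : ∃ B, M.IsBase B ∧ (∑ᶠ e ∈ B, ψ e) ∉ F) (B : Set α) (hB : M.IsBase B) :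
    ∃ B', M.IsBase B' ∧ (∑ᶠ e ∈ B', ψ e) ∉ F ∧ (B \ B').ncard ≤ F.card := by
  classical
  -- finsets
  have hfin : ∀ A : Set α, M.IsBase A → ∃ A' : Finset α, (A' : Set α) = A := by
    intro A hA
    have : A.Finite := hA.finite
    exact ⟨this.toFinset, this.coe_toFinset⟩
  have hsumc : ∀ A : Finset α, ∑ᶠ e ∈ (A : Set α), ψ e = ∑ e ∈ A, ψ e := by
    intro A; exact finsum_mem_coe_finset ψ A
  obtain ⟨Bf, rfl⟩ := hfin B hB
  obtain ⟨B₁, hB₁, hB₁F⟩ := hF
  obtain ⟨B₁, rfl⟩ := hfin B₁ hB₁
  rw [hsumc] at hB₁F
  -- a nearest one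
  have hex : ∃ k, ∃ A : Finset α, M.IsBase (A : Set α) ∧ ∑ e ∈ A, ψ e ∉ F ∧ #(Bf \ A) = k :=
    ⟨_, B₁, hB₁, hB₁F, rfl⟩
  obtain ⟨Bs, hBs, hBsF, hk⟩ := Nat.find_spec hex
  have hmin : ∀ A : Finset α, M.IsBase (A : Set α) → #(Bf \ A) < Nat.find hex →
      ∑ e ∈ A, ψ e ∈ F := by
    intro A hA hlt
    by_contra hc
    exact Nat.find_min hex hlt ⟨A, hA, hc, rfl⟩
  refine ⟨Bs, hBs, by rw [hsumc]; exact hBsF, ?_⟩
  rw [← coe_sdiff, Set.ncard_coe_finset, hk]
  by_contra hcon
  push Not at hcon
  set k := Nat.find hex with hkdef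
  have hcard : ∀ A : Finset α, M.IsBase (A : Set α) → #A = #Bs := by
    intro A hA
    have := hA.encard_eq_encard_of_isBase hBs
    rw [Set.encard_coe_eq_coe_finsetCard, Set.encard_coe_eq_coe_finsetCard] at this
    exact_mod_cast this
  have hcBf := hcard Bf hB
  -- bases between the intersection and the union
  have hother : ∀ A ⊆ Bf ∪ Bs, Bf ∩ Bs ⊆ A → M.IsBase (A : Set α) → A ≠ Bs →
      ∑ e ∈ A, ψ e ∈ F := by
    intro A hAS hIA hA hne
    apply hmin A hA
    have h1 : ¬ A ⊆ Bs := fun h => hne (eq_of_subset_of_card_le h (hcard A hA).ge)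
    rw [not_subset] at h1
    obtain ⟨x, hxA, hxB⟩ := h1
    have hxBf : x ∈ Bf := by
      have := hAS hxA
      rw [mem_union] at this
      exact this.resolve_right hxB
    rw [← hk]
    refine card_lt_card ⟨?_, fun hc => ?_⟩
    · intro y hy
      rw [mem_sdiff] at hy ⊢
      exact ⟨hy.1, fun hyB => hy.2 (hIA (mem_inter.2 ⟨hy.1, hyB⟩))⟩
    · exact (mem_sdiff.1 (hc (mem_sdiff.2 ⟨hxBf, hxB⟩))).2 hxA
  have huniq : ∀ A ⊆ Bf ∪ Bs, Bf ∩ Bs ⊆ A → M.IsBase (A : Set α) →
      ∑ x ∈ A, ψ x = ∑ x ∈ Bs, ψ x → A = Bs := by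
    intro A h1 h2 h3 h4
    by_contra hne
    have := hother A h1 h2 h3 hne
    rw [h4] at this
    exact hBsF this
  have hlab : #(lab M ψ (Bf ∪ Bs) (Bf ∩ Bs)) ≤ #F + 1 := by
    have : lab M ψ (Bf ∪ Bs) (Bf ∩ Bs) ⊆ insert (∑ x ∈ Bs, ψ x) F := by
      intro g hg
      rw [mem_lab] at hg
      obtain ⟨A, h1, h2, h3, rfl⟩ := hg
      rw [mem_insert]
      by_cases hne : A = Bs
      · left; rw [hne]
      · right; exact hother A h1 h2 h3 hne
    exact (card_le_card this).trans (card_insert_le _ _)
  -- the rank function as a function with values in the natural numbers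
  have hr : ∃ r : Set α → ℕ, ∀ X, M.eRk X = r X := by
    have : ∀ X, ∃ n : ℕ, M.eRk X = n := by
      intro X
      have h1 : M.eRk X ≠ ⊤ := by
        have h2 := M.eRk_le_eRank X
        rw [← hBs.encard_eq_eRank, Set.encard_coe_eq_coe_finsetCard] at h2
        exact ne_top_of_le_ne_top (ENat.natCast_ne_top _) h2
      obtain ⟨n, hn⟩ := ENat.ne_top_iff_exists.1 h1
      exact ⟨n, hn.symm⟩
    choose r hr using this
    exact ⟨r, hr⟩
  obtain ⟨r, hr⟩ := hr
  have hSE : ((Bf ∪ Bs : Finset α) : Set α) ⊆ M.E := by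
    rw [coe_union]
    exact Set.union_subset hB.subset_ground hBs.subset_ground
  have hmain := count M r hr ψ hBs subset_union_right hSE huniq _ (Bf ∩ Bs) rfl subset_rfl
    inter_subset_right
  -- the classes are independent
  have hcls : ∀ g, M.Indep ((cls ψ (Bf ∪ Bs) g ∪ (Bf ∩ Bs) : Finset α) : Set α) := by
    intro g
    set Q : Finset α := (Bs \ Bf).filter (fun x => ψ x = g) with hQ
    set P : Finset α := (Bf \ Bs).filter (fun x => ψ x = g) ∪ (Bf ∩ Bs) with hP
    have hPB : P ⊆ Bf := by
      intro x hx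
      simp only [hP, mem_union, mem_filter, mem_sdiff, mem_inter] at hx
      tauto
    have hQB : Q ⊆ Bs := by
      intro x hx
      simp only [hQ, mem_filter, mem_sdiff] at hx
      exact hx.1.1
    have hPi : M.Indep (P : Set α) := hB.indep.subset (by exact_mod_cast hPB)
    have hPY : (P : Set α) ⊆ M.closure ((Bs \ Q : Finset α) : Set α) := by
      intro x hx
      have hx' : x ∈ P := hx
      by_cases hxB : x ∈ Bs
      · refine M.mem_closure_of_mem ?_ ?_
        · have hxQ : x ∉ Q := by
            intro hc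
            simp only [hQ, mem_filter, mem_sdiff] at hc
            exact hc.1.2 (hPB hx')
          exact mem_coe.2 (mem_sdiff.2 ⟨hxB, hxQ⟩)
        · exact (coe_subset.2 sdiff_subset).trans hBs.subset_ground
      · have hxg : ψ x = g ∧ x ∈ Bf := by
          simp only [hP, mem_union, mem_filter, mem_sdiff, mem_inter] at hx'
          tauto
        by_contra hxc
        have hYi : M.Indep ((Bs \ Q : Finset α) : Set α) :=
          hBs.indep.subset (coe_subset.2 sdiff_subset)
        have hxE : x ∈ M.E := hB.subset_ground hxg.2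
        have hxY : M.Indep (insert x ((Bs \ Q : Finset α) : Set α)) := by
          rw [hYi.insert_indep_iff]
          left
          exact ⟨hxE, hxc⟩
        obtain ⟨B', hB', h1, h2⟩ := hxY.exists_isBase_subset_union_isBase hBs
        obtain ⟨B', rfl⟩ := hfin B' hB'
        have hxB' : x ∈ B' := by
          have := h1 (Set.mem_insert _ _)
          exact this
        have h3 : B'.erase x ⊆ Bs := by
          intro y hy
          rw [mem_erase] at hy
          have := h2 hy.2
          simp only [Set.mem_union, Set.mem_insert_iff, coe_sdiff, Set.mem_sdiff, mem_coe] at this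
          tauto
        have h4 := hcard B' hB'
        have h5 := card_erase_add_one hxB'
        have h6 : #(Bs \ B'.erase x) = 1 := by
          have := card_sdiff_add_card_eq_card h3
          omega
        obtain ⟨f, hf⟩ := card_eq_one.1 h6
        have hfB : f ∈ Bs \ B'.erase x := by rw [hf]; simp
        rw [mem_sdiff] at hfB
        have hfB' : f ∉ B' := by
          intro hc
          apply hfB.2
          rw [mem_erase]
          refine ⟨?_, hc⟩
          rintro rfl
          exact hxB hfB.1
        have hfQ : f ∈ Q := by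
          by_contra hc
          apply hfB'
          have : f ∈ insert x ((Bs \ Q : Finset α) : Set α) := by
            right
            exact mem_coe.2 (mem_sdiff.2 ⟨hfB.1, hc⟩)
          exact h1 this
        have hfQ' : ψ f = g ∧ f ∉ Bf := by
          simp only [hQ, mem_filter, mem_sdiff] at hfQ
          exact ⟨hfQ.2, hfQ.1.2⟩
        have h7 : B'.erase x = Bs.erase f := by
          ext y
          constructor
          · intro hy
            rw [mem_erase]
            refine ⟨?_, h3 hy⟩
            rintro rfl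
            exact hfB.2 hy
          · intro hy
            rw [mem_erase] at hy
            by_contra hc
            have : y ∈ Bs \ B'.erase x := mem_sdiff.2 ⟨hy.2, hc⟩
            rw [hf, mem_singleton] at this
            exact hy.1 this
        have h8 : ∑ e ∈ B', ψ e = ∑ e ∈ Bs, ψ e := by
          rw [← add_sum_erase B' ψ hxB', ← add_sum_erase Bs ψ hfB.1, h7, hxg.1, hfQ'.1]
        have h9 : B' ⊆ Bf ∪ Bs := by
          intro y hy
          rw [mem_union]
          by_cases hyx : y = x
          · left; rw [hyx]; exact hxg.2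
          · right; exact h3 (mem_erase.2 ⟨hyx, hy⟩)
        have h10 : Bf ∩ Bs ⊆ B' := by
          intro y hy
          rw [mem_inter] at hy
          have hyf : y ≠ f := by rintro rfl; exact hfQ'.2 hy.1
          have : y ∈ B'.erase x := by rw [h7]; exact mem_erase.2 ⟨hyf, hy.2⟩
          exact (mem_erase.1 this).2
        have h11 := huniq B' h9 h10 hB' h8
        rw [h11] at hxB'
        exact hxB hxB'
    -- extend `P` to a basis of the closure
    obtain ⟨P', hP', hPP'⟩ := hPi.subset_isBasis_of_subset hPY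
    have h1 : M.eRk (P' ∪ (Q : Set α)) = (Bs : Set α).encard := by
      rw [← M.eRk_union_closure_left_eq, hP'.closure_eq_closure, Matroid.closure_closure,
        M.eRk_union_closure_left_eq, ← coe_union, sdiff_union_of_subset hQB,
        hBs.indep.eRk_eq_encard]
    have h2 : (P' ∪ (Q : Set α)).encard ≤ M.eRk (P' ∪ (Q : Set α)) := by
      rw [h1]
      refine (Set.encard_union_le _ _).trans ?_
      have h3 : P'.encard = ((Bs \ Q : Finset α) : Set α).encard := by
        rw [hP'.encard_eq_eRk, M.eRk_closure_eq,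
          (hBs.indep.subset (coe_subset.2 sdiff_subset)).eRk_eq_encard]
      rw [h3, Set.encard_coe_eq_coe_finsetCard, Set.encard_coe_eq_coe_finsetCard,
        Set.encard_coe_eq_coe_finsetCard]
      have := card_sdiff_add_card_eq_card hQB
      exact_mod_cast this.le
    have h3 : M.Indep (P' ∪ (Q : Set α)) :=
      (M.isRkFinite_set _).indep_of_encard_le_eRk h2
    refine h3.subset ?_
    intro x hx
    have hx' : x ∈ cls ψ (Bf ∪ Bs) g ∪ (Bf ∩ Bs) := hx
    simp only [cls, mem_union, mem_filter, mem_inter] at hx'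
    by_cases hxB : x ∈ Bf
    · left
      apply hPP'
      rw [mem_coe, hP]
      simp only [mem_union, mem_filter, mem_sdiff, mem_inter]
      tauto
    · right
      rw [mem_coe, hQ]
      simp only [mem_filter, mem_sdiff]
      tauto
  have hrcls : ∀ g, r ((cls ψ (Bf ∪ Bs) g ∪ (Bf ∩ Bs) : Finset α) : Set α) =
      #(cls ψ ((Bf ∪ Bs) \ (Bf ∩ Bs)) g) + #(Bf ∩ Bs) := by
    intro g
    have h1 := (hcls g).eRk_eq_encard
    rw [hr, Set.encard_coe_eq_coe_finsetCard] at h1
    have h2 : r ((cls ψ (Bf ∪ Bs) g ∪ (Bf ∩ Bs) : Finset α) : Set α) =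
      #(cls ψ (Bf ∪ Bs) g ∪ (Bf ∩ Bs)) := by exact_mod_cast h1
    rw [h2, ← card_union_of_disjoint]
    · congr 1
      ext x
      simp only [cls, mem_union, mem_filter, mem_sdiff, mem_inter]
      tauto
    · rw [disjoint_left]
      intro x hx hx'
      simp only [cls, mem_filter, mem_sdiff] at hx
      exact hx.1.2 hx'
  have hsum : ∑ g ∈ (Bf ∪ Bs).image ψ, r ((cls ψ (Bf ∪ Bs) g ∪ (Bf ∩ Bs) : Finset α) : Set α) =
      #((Bf ∪ Bs) \ (Bf ∩ Bs)) + #((Bf ∪ Bs).image ψ) * #(Bf ∩ Bs) := by
    simp only [hrcls]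
    rw [sum_add_distrib, sum_const, smul_eq_mul]
    congr 1
    symm
    refine card_eq_sum_card_fiberwise ?_
    intro x hx
    have hx' : x ∈ (Bf ∪ Bs) \ (Bf ∩ Bs) := hx
    exact mem_image_of_mem _ (mem_sdiff.1 hx').1
  have hc1 : #((Bf ∪ Bs) \ (Bf ∩ Bs)) = k + k := by
    have h1 : (Bf ∪ Bs) \ (Bf ∩ Bs) = (Bf \ Bs) ∪ (Bs \ Bf) := by
      ext x; simp only [mem_union, mem_sdiff, mem_inter]; tauto
    have h2 : Disjoint (Bf \ Bs) (Bs \ Bf) := by
      rw [disjoint_left]
      intro x hx hx'
      exact (mem_sdiff.1 hx).2 (mem_sdiff.1 hx').1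
    have h3 : #(Bs \ Bf) = #(Bf \ Bs) := card_sdiff_comm hcBf.symm
    rw [h1, card_union_of_disjoint h2, h3, hk]
  have hc2 : #(Bs \ (Bf ∩ Bs)) = k := by
    have h1 : Bs \ (Bf ∩ Bs) = Bs \ Bf := by
      ext x; simp only [mem_sdiff, mem_inter]; tauto
    have h3 : #(Bs \ Bf) = #(Bf \ Bs) := card_sdiff_comm hcBf.symm
    rw [h1, h3, hk]
  rw [hsum, hc1, hc2] at hmain
  omega

end Pool.Agent.Results.MP_2a6b7d_co.Proximity
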